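import Mathlib

set_option autoImplicit false

namespace Pool.Agent.H.MP_161132_co

open SimpleGraph

noncomputable def dg {V : Type} (G : SimpleGraph V) (v : V) : ℕ := (G.neighborSet v).ncard

theorem dg_sup {V : Type} [Finite V] [DecidableEq V] (G : SimpleGraph V) {u v : V} (h : u ≠ v)
    (hn : ¬ G.Adj u v) (x : V) :
    dg (G ⊔ edge u v) x = dg G x + if x = u ∨ x = v then 1 else 0 := by
  unfold dg
  by_cases h1 : x = u
  · subst h1
    rw [if_pos (Or.inl rfl), ← Set.ncard_insert_of_notMem (a := v) (s := G.neighborSet x) hn]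
    congr 1; ext y
    simp only [mem_neighborSet, sup_adj, edge_adj, Set.mem_insert_iff]
    grind
  by_cases h2 : x = v
  · subst h2
    rw [if_pos (Or.inr rfl), ← Set.ncard_insert_of_notMem (a := u) (s := G.neighborSet x)
      (fun e => hn (G.adj_symm e))]
    congr 1; ext y
    simp only [mem_neighborSet, sup_adj, edge_adj, Set.mem_insert_iff]
    grind
  · rw [if_neg (by tauto), add_zero]
    congr 1; ext y
    simp [edge_adj, h1, h2]

def S (m : ℕ) : Finset (ZMod m) := ({1, 2, -1, -2} : Finset (ZMod m)).erase 0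

def gr {C T : Type} (m : ℕ) (R : C × ZMod m → T → Prop) : SimpleGraph ((C × ZMod m) ⊕ T) where
  Adj
    | .inl x, .inl y => x.1 = y.1 ∧ y.2 - x.2 ∈ S m
    | .inl x, .inr t => R x t
    | .inr t, .inl x => R x t
    | .inr _, .inr _ => False
  symm := ⟨by
    rintro (p | p) (q | q) h
    · refine ⟨h.1.symm, ?_⟩
      have := h.2
      rw [← neg_sub]
      simp only [S, Finset.mem_erase, Finset.mem_insert, Finset.mem_singleton, ne_eq,
        neg_eq_zero] at this ⊢
      refine ⟨this.1, ?_⟩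
      rcases this.2 with h | h | h | h <;> simp [h]
    exacts [h, h, h]⟩
  loopless := ⟨by
    rintro (p | p) h
    · simpa [S] using h.2
    · exact h⟩

theorem dg_inl {C T : Type} [Finite C] [Finite T] (m : ℕ) [NeZero m] (R : C × ZMod m → T → Prop)
    (x : C × ZMod m) : dg (gr m R) (.inl x) = (S m).card + {t | R x t}.ncard := by
  have : (gr m R).neighborSet (.inl x) =
      (fun s => .inl (x.1, x.2 + s)) '' (S m : Set (ZMod m)) ∪ Sum.inr '' {t | R x t} := by
    ext (y | t)
    · simp only [mem_neighborSet, gr, Set.mem_union, Set.mem_image, Finset.mem_coe,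
        Sum.inl.injEq, reduceCtorEq, and_false, exists_false, or_false]
      constructor
      · rintro ⟨h1, h2⟩
        exact ⟨_, h2, Prod.ext h1 (by simp)⟩
      · rintro ⟨s, h, rfl⟩
        simpa using h
    · simp [gr]
  rw [dg, this, Set.ncard_union_eq (by simp [Set.disjoint_left]),
    Set.ncard_image_of_injective _ (fun a b h => by simpa using h),
    Set.ncard_image_of_injective _ Sum.inr_injective, Set.ncard_coe_finset]

theorem dg_inr {C T : Type} (m : ℕ) (R : C × ZMod m → T → Prop)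
    (t : T) : dg (gr m R) (.inr t) = {x | R x t}.ncard := by
  have : (gr m R).neighborSet (.inr t) = Sum.inl '' {x | R x t} := by
    ext (y | t) <;> simp [gr]
  rw [dg, this, Set.ncard_image_of_injective _ Sum.inl_injective]

theorem upper {C T : Type} (m d : ℕ) [NeZero m] (R : C × ZMod m → T → Prop)
    (h1 : ∀ x, dg (gr m R) (.inl x) = d) (h2 : ∀ t, d + 1 ≤ dg (gr m R) (.inr t))
    (l : List ((C × ZMod m) ⊕ T)) (nd : l.Nodup) (ha : l.IsChain (gr m R).Adj)
    (hd : l.IsChain (fun a b => dg (gr m R) a ≤ dg (gr m R) b)) : l.length ≤ m + 1 := by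
  let Q : (C × ZMod m) ⊕ T → (C × ZMod m) ⊕ T → Prop := fun a b =>
    ∃ x, a = .inl x ∧ ∀ y, b = .inl y → x.1 = y.1
  have : IsTrans _ Q := ⟨by
    rintro _ _ c ⟨x, rfl, h⟩ ⟨y, rfl, h'⟩
    exact ⟨x, rfl, fun z e => (h y rfl).trans (h' z e)⟩⟩
  have hQ : l.IsChain Q := by
    rw [List.isChain_iff_getElem] at ha hd ⊢
    intro i hi
    have a := ha i hi
    have b := hd i hi
    generalize l[i] = p at a b
    generalize l[i + 1] = q at a b
    rcases p with p | p <;> rcases q with q | q
    · exact ⟨p, rfl, fun y e => (Sum.inl.inj e) ▸ a.1⟩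
    · exact ⟨p, rfl, fun y e => by simp at e⟩
    · have := h1 q; have := h2 p; omega
    · exact a.elim
  rw [List.isChain_iff_pairwise] at hQ
  have nd' : (l.map (Sum.elim (fun x => some x.2) (fun _ => none))).Nodup := by
    rw [List.Nodup, List.pairwise_map]
    refine (hQ.and nd).imp ?_
    rintro _ (y | t) ⟨⟨x, rfl, h⟩, hne⟩ e
    · exact hne (congrArg _ (Prod.ext (h y rfl) (by simpa using e)))
    · simp at e
  simpa using nd'.length_le_card

theorem build {C T : Type} (m d : ℕ) (R : C × ZMod m → T → Prop)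
    (G' : SimpleGraph ((C × ZMod m) ⊕ T)) (hG : gr m R ≤ G') (c : C) (i : ZMod m) (a : ℕ)
    (s : ℕ → ℕ) (s1 : ∀ r, s (r + 1) = s r + 1 ∨ s (r + 1) = s r + 2)
    (s2 : ∀ r < a, 1 ≤ s r ∧ s r ≤ m) (hd : ∀ r < a, dg G' (.inl (c, i + s r)) = d)
    (tl : List ((C × ZMod m) ⊕ T)) (t1 : tl.Nodup) (t2 : tl.IsChain G'.Adj)
    (t3 : tl.IsChain (fun a b => dg G' a ≤ dg G' b)) (t4 : ∀ x ∈ tl, d + 1 ≤ dg G' x)
    (t5 : ∀ r, r + 1 = a → ∀ y ∈ tl.head?, G'.Adj (.inl (c, i + s r)) y)
    (t6 : a + tl.length = m + 2) :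
    ∃ l : List ((C × ZMod m) ⊕ T), l.length = m + 2 ∧ l.Nodup ∧ l.IsChain G'.Adj ∧
      l.IsChain (fun a b => dg G' a ≤ dg G' b) := by
  have mono : StrictMono s := strictMono_nat_of_lt_succ (fun r => by have := s1 r; omega)
  have inj : ∀ r < a, ∀ r' < a, (s r : ZMod m) = s r' → r = r' := by
    intro r hr r' hr' e
    have := s2 r hr
    have := s2 r' hr'
    rw [ZMod.natCast_eq_natCast_iff] at e
    exact mono.injective (Nat.ModEq.eq_of_abs_lt e (by rw [abs_lt]; omega))
  have last : ∀ x ∈ ((List.range a).map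
      (fun r => (.inl (c, i + s r) : (C × ZMod m) ⊕ T))).getLast?,
      ∃ r, r + 1 = a ∧ x = .inl (c, i + s r) := by
    intro x hx
    rcases a with _ | a
    · simp at hx
    · exact ⟨a, rfl, by simpa [List.range_succ, eq_comm] using hx⟩
  refine ⟨(List.range a).map (fun r => .inl (c, i + s r)) ++ tl, by simpa using t6, ?_, ?_, ?_⟩
  · rw [List.nodup_append]
    refine ⟨List.Nodup.map_on (fun r hr r' hr' e => inj r (by simpa using hr) r'
      (by simpa using hr') (by simpa using e)) List.nodup_range, t1, ?_⟩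
    rintro x hx _ hy rfl
    obtain ⟨r, hr, rfl⟩ := List.mem_map.1 hx
    have := t4 _ hy
    rw [hd r (by simpa using hr)] at this
    omega
  · refine List.isChain_append.2 ⟨?_, t2, fun x hx y hy => ?_⟩
    · rw [List.isChain_map, List.isChain_range]
      intro r hr
      refine hG (show _ ∧ _ from ⟨rfl, Finset.mem_erase.2 ⟨fun e => ?_, ?_⟩⟩)
      · have := inj (r + 1) (by omega) r (by omega) (by linear_combination e)
        omega
      · rcases s1 r with h | h <;> simp [h]
    · obtain ⟨r, h, rfl⟩ := last x hx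
      exact t5 r h y hy
  · refine List.isChain_append.2 ⟨?_, t3, fun x hx y hy => ?_⟩
    · rw [List.isChain_map, List.isChain_range]
      intro r hr
      rw [hd _ (by omega), hd _ (by omega)]
    · obtain ⟨r, h, rfl⟩ := last x hx
      rw [hd _ (by omega)]
      have := t4 y (List.mem_of_mem_head? hy)
      omega

theorem lower {C T : Type} [Finite C] [Finite T] (m d : ℕ) [NeZero m]
    (R : C × ZMod m → T → Prop)
    (h1 : ∀ x, dg (gr m R) (.inl x) = d) (h2 : ∀ t, d + 1 ≤ dg (gr m R) (.inr t))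
    (τ : C × ZMod m → T) (τ1 : ∀ x, R x (τ x)) (τ2 : ∀ c i, R (c, i) (τ (c, i - 1)))
    (τ3 : ∀ x, dg (gr m R) (.inr (τ x)) = d + 1) (τ4 : ∀ c i j, τ (c, i) = τ (c, j) → i = j)
    (u v : (C × ZMod m) ⊕ T) (huv : u ≠ v) (hn : ¬ (gr m R).Adj u v) :
    ∃ l : List ((C × ZMod m) ⊕ T), l.length = m + 2 ∧ l.Nodup ∧ l.IsChain (gr m R ⊔ edge u v).Adj ∧
      l.IsChain (fun a b => dg (gr m R ⊔ edge u v) a ≤ dg (gr m R ⊔ edge u v) b) := by
  classical
  have m0 := NeZero.pos m
  have ge : ∀ x, d ≤ dg (gr m R) x := by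
    rintro (x | t)
    · exact (h1 x).ge
    · have := h2 t; omega
  have nz : ∀ r : ℕ, 1 ≤ r → r < m → ∀ i : ZMod m, i + r ≠ i := fun r h h' i e =>
    absurd (Nat.le_of_dvd h ((ZMod.natCast_eq_zero_iff r m).1 (by simpa using e))) (by omega)
  have neg : ∀ (i : ZMod m) (r : ℕ), r + 1 = m → i + r = i - 1 := fun i r e => by
    have : ((r + 1 : ℕ) : ZMod m) = 0 := by rw [e]; simp
    push_cast at this
    linear_combination this
  have ed : ∀ u v : (C × ZMod m) ⊕ T, u ≠ v → (gr m R ⊔ edge u v).Adj u v :=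
    fun u v h => Or.inr ((edge_adj ..).2 ⟨Or.inl ⟨rfl, rfl⟩, h⟩)
  have A : ∀ c i v, (∀ j, v ≠ .inl (c, j)) → ¬ (gr m R).Adj (.inl (c, i)) v →
      ∃ l : List ((C × ZMod m) ⊕ T), l.length = m + 2 ∧ l.Nodup ∧
      l.IsChain (gr m R ⊔ edge (.inl (c, i)) v).Adj ∧
      l.IsChain (fun a b => dg (gr m R ⊔ edge (.inl (c, i)) v) a ≤
        dg (gr m R ⊔ edge (.inl (c, i)) v) b) := by
    intro c i v hv hn
    have D := dg_sup _ (hv i).symm hn
    have ne : .inr (τ (c, i - 1)) ≠ v := fun e => hn (e ▸ τ2 c i)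
    have := ge v
    refine build m d R _ le_sup_left c i (m - 1) (· + 1) (by simp) (by omega) (fun r hr => ?_)
      [.inr (τ (c, i - 1)), .inl (c, i), v] (by simp [ne, (hv i).symm]) ?_ ?_ ?_ ?_
      (by simp; omega)
    · rw [D, h1, if_neg, add_zero]
      simp only [Sum.inl.injEq, Prod.mk.injEq, true_and, not_or]
      exact ⟨nz _ (by omega) (by omega) i, (hv _).symm⟩
    · simp only [List.isChain_cons_cons, List.IsChain.singleton, and_true]
      exact ⟨Or.inl (τ2 c i), ed _ _ (hv i).symm⟩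
    · simp [D, h1, τ3, ne, this]
    · simp [D, h1, τ3, ne, this]
    · intro r hr y hy
      obtain rfl : .inr (τ (c, i - 1)) = y := by simpa using hy
      rw [neg i (r + 1) (by omega)]
      exact Or.inl (τ1 _)
  have Cc : ∀ t t', t ≠ t' → dg (gr m R) (.inr t) ≤ dg (gr m R) (.inr t') →
      ∃ l : List ((C × ZMod m) ⊕ T), l.length = m + 2 ∧ l.Nodup ∧
      l.IsChain (gr m R ⊔ edge (.inr t) (.inr t')).Adj ∧
      l.IsChain (fun a b => dg (gr m R ⊔ edge (.inr t) (.inr t')) a ≤
        dg (gr m R ⊔ edge (.inr t) (.inr t')) b) := by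
    intro t t' hne hle
    have D := dg_sup (gr m R) (u := .inr t) (v := .inr t') (by simpa using hne) id
    have := ge (.inr t)
    have := ge (.inr t')
    obtain ⟨⟨c, i⟩, hx⟩ : {x | R x t}.Nonempty :=
      Set.nonempty_of_ncard_ne_zero (by have := h2 t; rw [dg_inr] at this; omega)
    refine build m d R _ le_sup_left c i m (· + 1) (by simp) (by omega) (fun r hr => ?_)
      [.inr t, .inr t'] (by simp [hne]) ?_ ?_ ?_ ?_ (by simp)
    · simp [D, h1]
    · simp only [List.isChain_cons_cons, List.IsChain.singleton, and_true]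
      exact ed _ _ (by simpa using hne)
    · simp [D, hle]
    · simp [*]
    · intro r hr y hy
      obtain rfl : .inr t = y := by simpa using hy
      simp only [hr, CharP.cast_eq_zero, add_zero]
      exact Or.inl hx
  rcases u with ⟨c, i⟩ | t
  · by_cases h : ∀ j, v ≠ .inl (c, j)
    · exact A c i v h hn
    push Not at h
    obtain ⟨j, rfl⟩ := h
    have D := dg_sup _ huv hn
    have ij : i ≠ j := by simpa using huv
    obtain ⟨k, rfl, k2⟩ : ∃ k : ℕ, j = i + k ∧ k < m := ⟨(j - i).val, by simp, ZMod.val_lt _⟩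
    have k1 : k ≠ 0 := by rintro rfl; simp at ij
    have ji : i + k ≠ i - 1 := fun e => hn ⟨rfl, Finset.mem_erase.2
      ⟨sub_ne_zero.2 ij.symm, by simp [e]⟩⟩
    have k3 : k + 1 ≠ m := fun e => ji (neg i k e)
    have ne : τ (c, i - 1) ≠ τ (c, i + k) := fun e => ji (τ4 _ _ _ e).symm
    refine build m d R _ le_sup_left c i (m - 2) (fun r => if r + 1 < k then r + 1 else r + 2)
      (fun r => by split_ifs <;> omega) (fun r hr => by split_ifs <;> omega) (fun r hr => ?_)
      [.inr (τ (c, i - 1)), .inl (c, i), .inl (c, i + k), .inr (τ (c, i + k))]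
      (by simpa [ne] using ij) ?_ ?_ ?_ ?_ (by simp; omega)
    · rw [D, h1, if_neg, add_zero]
      simp only [Sum.inl.injEq, Prod.mk.injEq, true_and, not_or, add_right_inj]
      refine ⟨nz _ (by split_ifs <;> omega) (by split_ifs <;> omega) i, fun e => ?_⟩
      have := Nat.ModEq.eq_of_lt_of_lt ((ZMod.natCast_eq_natCast_iff _ _ _).1 e)
        (by split_ifs <;> omega) k2
      split_ifs at this <;> omega
    · simp only [List.isChain_cons_cons, List.IsChain.singleton, and_true]
      exact ⟨Or.inl (τ2 c i), ed _ _ huv, Or.inl (τ1 _)⟩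
    · simp [D, h1, τ3]
    · simp [D, h1, τ3]
    · intro r hr y hy
      obtain rfl : .inr (τ (c, i - 1)) = y := by simpa using hy
      rw [if_neg (by omega), neg i (r + 2) (by omega)]
      exact Or.inl (τ1 _)
  · rcases v with ⟨c, i⟩ | t'
    · rw [edge_comm]
      exact A c i _ (by simp) hn
    · rcases le_total (dg (gr m R) (.inr t)) (dg (gr m R) (.inr t')) with h | h
      · exact Cc _ _ (by simpa using huv) h
      · rw [edge_comm]
        exact Cc _ _ (by simpa using huv.symm) h

theorem edges {C T : Type} [Fintype C] [Finite T] (m d : ℕ) [NeZero m]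
    (R : C × ZMod m → T → Prop) (h1 : ∀ x, dg (gr m R) (.inl x) = d) :
    (gr m R).edgeSet.ncard ≤ Fintype.card (C × ZMod m) * d := by
  classical
  have := Fintype.ofFinite T
  have e : ∀ x, ((gr m R).incidenceFinset (.inl x)).card = d := fun x => by
    rw [card_incidenceFinset_eq_degree, ← card_neighborSet_eq_degree, ← h1 x, dg,
      Set.ncard_eq_toFinset_card', Set.toFinset_card]
  rw [← coe_edgeFinset, Set.ncard_coe_finset]
  refine (Finset.card_le_card (t := Finset.univ.biUnion
    (fun x => (gr m R).incidenceFinset (.inl x))) ?_).trans (Finset.card_biUnion_le.trans ?_)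
  · intro z hz
    induction z using Sym2.ind with
    | _ a b =>
      rw [mem_edgeFinset] at hz
      simp only [Finset.mem_biUnion, Finset.mem_univ, true_and, mem_incidenceFinset]
      rcases a with a | a
      · exact ⟨a, hz, by simp⟩
      · rcases b with b | b
        · exact ⟨b, hz, by simp⟩
        · exact hz.elim
  · simp [e]

def A (m : ℕ) : Finset (ZMod m) := {0, 1}

def R (m B j e : ℕ) (x : (Fin B × Fin 4) × ZMod m) : (Fin B × ZMod m) ⊕ Fin j ⊕ Fin e → Prop
  | .inl t => t.1 = x.1.1 ∧ x.2 - t.2 ∈ A m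
  | .inr (.inl t) => x.1.1.val % j = t.val
  | .inr (.inr _) => True

theorem R1 (m B j e : ℕ) [NeZero m] (hj : 0 < j) (x : (Fin B × Fin 4) × ZMod m) :
    {t | R m B j e x t}.ncard = (A m).card + 1 + e := by
  have : {t | R m B j e x t} = (fun a => .inl (x.1.1, x.2 - a)) '' (A m : Set (ZMod m)) ∪
      {.inr (.inl ⟨_, Nat.mod_lt x.1.1.val hj⟩)} ∪ Set.range (fun t => .inr (.inr t)) := by
    ext (t | t | t)
    · simp only [R, Set.mem_ofPred_eq, Set.mem_union, Set.mem_image, Finset.mem_coe,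
        Sum.inl.injEq, Set.mem_singleton_iff, reduceCtorEq, Set.mem_range, exists_false, or_false]
      constructor
      · rintro ⟨h1, h2⟩
        exact ⟨_, h2, Prod.ext h1.symm (by simp)⟩
      · rintro ⟨s, h, rfl⟩
        simpa using h
    · simp [R, Fin.ext_iff, eq_comm]
    · simp [R]
  rw [this, Set.ncard_union_eq (by simp [Set.disjoint_left]),
    Set.ncard_union_eq (by simp [Set.disjoint_left]),
    Set.ncard_image_of_injective _ (fun a b h => by simpa using h), Set.ncard_coe_finset,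
    Set.ncard_singleton, Set.ncard_range_of_injective (fun a b h => by simpa using h)]
  simp

theorem R2 (m B j e : ℕ) [NeZero m] (t : Fin B × ZMod m) :
    {x | R m B j e x (.inl t)}.ncard = 4 * (A m).card := by
  have : {x | R m B j e x (.inl t)} = (fun p : Fin 4 × ZMod m => ((t.1, p.1), t.2 + p.2)) ''
      (Set.univ ×ˢ (A m : Set (ZMod m))) := by
    ext ⟨⟨β, c⟩, i⟩
    simp only [R, Set.mem_ofPred_eq, Set.mem_image, Set.mem_prod, Set.mem_univ, true_and]
    constructor
    · rintro ⟨rfl, h2⟩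
      exact ⟨(c, _), h2, by simp⟩
    · rintro ⟨s, h, e⟩
      simp only [Prod.mk.injEq] at e
      exact ⟨e.1.1, by simpa [← e.2] using h⟩
  rw [this, Set.ncard_image_of_injective _ (fun a b h => by simpa [Prod.ext_iff] using h),
    Set.ncard_prod, Set.ncard_coe_finset]
  simp

theorem R3 (m B j e : ℕ) [NeZero m] (hj : j ≤ B) (hB : 0 < B) (t : Fin j ⊕ Fin e) :
    4 * (A m).card ≤ {x | R m B j e x (.inr t)}.ncard := by
  obtain ⟨β, h⟩ : ∃ β : Fin B, ∀ c i, R m B j e ((β, c), i) (.inr t) := by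
    rcases t with t | t
    · exact ⟨⟨t.val, by omega⟩, fun _ _ => Nat.mod_eq_of_lt t.2⟩
    · exact ⟨⟨0, hB⟩, fun _ _ => trivial⟩
  have := Set.ncard_le_ncard (s := Set.range (fun p : Fin 4 × ZMod m => ((β, p.1), p.2)))
    (t := {x | R m B j e x (.inr t)}) (by rintro _ ⟨p, rfl⟩; exact h _ _)
  rw [Set.ncard_range_of_injective (fun a b h => by simpa [Prod.ext_iff] using h)] at this
  have h2 := Finset.card_le_univ (A m)
  simp only [Nat.card_eq_fintype_card, Fintype.card_prod, Fintype.card_fin] at this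
  omega

theorem par (m : ℕ) [NeZero m] : (S m).card + 2 ≤ 3 * (A m).card ∧ (A m).card ≤ 2 := by
  refine ⟨?_, Finset.card_le_two⟩
  by_cases h : (0 : ZMod m) = 1
  · have := subsingleton_of_zero_eq_one h
    have h1 : S m = ∅ := Finset.eq_empty_of_forall_notMem
      (fun x hx => (Finset.mem_erase.1 hx).1 (Subsingleton.elim _ _))
    have h2 : 0 < (A m).card := Finset.card_pos.2 ⟨0, by simp [A]⟩
    rw [h1, Finset.card_empty]; omega
  · have h1 : (S m).card ≤ 4 := Finset.card_erase_le.trans Finset.card_le_four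
    rw [A, Finset.card_pair h]; omega

end Pool.Agent.H.MP_161132_co
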